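import Mathlib
import Pool.Agent.W917.Flip.FinCase

/-!
# A countable set of coordinates closed under a choice of conditions
-/

set_option autoImplicit false

namespace Pool.Agent.W2helper55.NT

open Cardinal Set Pool.Agent.H65R3.Forc Pool.Agent.W917.Flip
open Pool.Agent.H631R2 (Cond)

variable {X : Type}

/-- restriction of a condition to a set of coordinates -/
theorem exists_restrict (s : Cond X) (W : Set X) :
    ∃ q : Cond X, s ≤ q ∧ q.dom ⊆ W ∧ ∀ i ∈ W, ∀ b, (i, b) ∈ s.s → (i, b) ∈ q.s := by
  classical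
  refine ⟨⟨s.s.filter fun z => z.1 ∈ W, fun i h1 h2 => ?_⟩, fun z hz => ?_, ?_, ?_⟩
  · exact s.fn i (Finset.mem_filter.1 h1).1 (Finset.mem_filter.1 h2).1
  · exact (Finset.mem_filter.1 hz).1
  · intro i hi
    obtain ⟨b, hb⟩ := Cond.mem_dom.1 hi
    exact (Finset.mem_filter.1 hb).2
  · intro i hi b hb
    exact Finset.mem_filter.2 ⟨hb, hi⟩

/-- the finite subsets of a countable set -/
theorem countable_finset {A : Type} {W : Set A} (hW : W.Countable) :
    {t : Finset A | (t : Set A) ⊆ W}.Countable := by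
  have h1 : {t : Set A | t.Finite ∧ t ⊆ W}.Countable := Set.countable_ofPred_finite_subset hW
  refine MapsTo.countable_of_injOn (f := fun t : Finset A => (t : Set A)) ?_ ?_ h1
  · intro t ht
    exact ⟨t.finite_toSet, ht⟩
  · intro a _ b _ h
    exact Finset.coe_injective h

/-- the conditions with coordinates in a countable set -/
theorem countable_cond {W : Set X} (hW : W.Countable) : {q : Cond X | q.dom ⊆ W}.Countable := by
  have h1 := countable_finset (hW.prod (countable_univ (α := Bool)))
  refine MapsTo.countable_of_injOn (f := fun q : Cond X => q.s) ?_ ?_ h1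
  · intro q hq z hz
    exact ⟨hq (Cond.mem_dom.2 ⟨z.2, hz⟩), mem_univ _⟩
  · intro a _ b _ h
    exact Cond.ext' h

/-- the index set of the requirements -/
def Req (W : Set X) : Set (Cond X × Finset X) := {z | z.1.dom ⊆ W ∧ (z.2 : Set X) ⊆ W}

theorem countable_req {W : Set X} (hW : W.Countable) : (Req W).Countable := by
  have h := (countable_cond hW).prod (countable_finset hW)
  exact h.mono fun z (hz : z.1.dom ⊆ W ∧ (z.2 : Set X) ⊆ W) => Set.mem_prod.2 ⟨hz.1, hz.2⟩

/-- closing off -/
theorem exists_closed (F : Cond X × Finset X → Finset X) (W0 : Set X) (hW0 : W0.Countable) :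
    ∃ W : Set X, W.Countable ∧ W0 ⊆ W ∧ ∀ z ∈ Req W, (F z : Set X) ⊆ W := by
  classical
  let G : Set X → Set X := fun W => W ∪ ⋃ z ∈ Req W, (F z : Set X)
  have hG : ∀ W, W.Countable → (G W).Countable := fun W hW =>
    hW.union ((countable_req hW).biUnion fun z _ => (F z).countable_toSet)
  have hG' : ∀ W, W ⊆ G W := fun W => subset_union_left
  let f : ℕ → Set X := fun n => G^[n] W0
  have hf : ∀ n, f (n + 1) = G (f n) := fun n => Function.iterate_succ_apply' G n W0
  have hfc : ∀ n, (f n).Countable := by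
    intro n
    induction n with
    | zero => exact hW0
    | succ n ih =>
      rw [hf]
      exact hG _ ih
  have hmono : Monotone f := monotone_nat_of_le_succ fun n => by
    rw [hf]
    exact hG' _
  refine ⟨⋃ n, f n, countable_iUnion hfc, subset_iUnion_of_subset 0 (subset_rfl), ?_⟩
  have hfin : ∀ S : Set X, S.Finite → S ⊆ ⋃ n, f n → ∃ n, S ⊆ f n := by
    intro S hS
    induction S, hS using Set.Finite.induction_on with
    | empty => exact fun _ => ⟨0, empty_subset _⟩
    | insert _ _ ih =>
      intro h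
      rw [insert_subset_iff] at h
      obtain ⟨n, hn⟩ := ih h.2
      obtain ⟨m, hm⟩ := mem_iUnion.1 h.1
      exact ⟨max m n, insert_subset (hmono (le_max_left m n) hm)
        (hn.trans (hmono (le_max_right m n)))⟩
  rintro ⟨q, S⟩ ⟨h1, h2⟩
  obtain ⟨m, hm⟩ := hfin _ q.dom_finite h1
  obtain ⟨n, hn⟩ := hfin _ S.finite_toSet h2
  refine subset_iUnion_of_subset (max m n + 1) ?_
  rw [hf]
  refine subset_trans ?_ subset_union_right
  exact subset_biUnion_of_mem (u := fun z => (F z : Set X))
    (show (q, S) ∈ Req (f (max m n)) from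
      ⟨hm.trans (hmono (le_max_left m n)), hn.trans (hmono (le_max_right m n))⟩)

/-! ### A set meeting countably many requirements -/

/-- pairs of disjoint finite sets -/
structure PT (X : Type) where
  a : Finset X
  b : Finset X
  dis : Disjoint a b

instance : Preorder (PT X) where
  le p q := p.a ⊆ q.a ∧ p.b ⊆ q.b
  le_refl p := ⟨subset_rfl, subset_rfl⟩
  le_trans p q r h h' := ⟨h.1.trans h'.1, h.2.trans h'.2⟩

/-- Let `R z` be countably many graphs, such that for each of them and each finite set there is an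
edge between two different points outside the finite set. Then there is a set `C` such that each of
the graphs has an edge from `C` to the complement of `C`. -/
theorem exists_cut {I : Type} [Countable I] (R : I → X → X → Prop)
    (h : ∀ i, ∀ S : Finset X, ∃ x y, R i x y ∧ x ≠ y ∧ x ∉ S ∧ y ∉ S) :
    ∃ C : Set X, ∀ i, ∃ x ∈ C, ∃ y ∉ C, R i x y := by
  classical
  have : Encodable I := Encodable.ofCountable I
  let 𝒟 : I → Order.Cofinal (PT X) := fun i =>
    { carrier := {p | ∃ x ∈ p.a, ∃ y ∈ p.b, R i x y}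
      isCofinal := by
        intro p
        obtain ⟨x, y, h1, h2, h3, h4⟩ := h i (p.a ∪ p.b)
        rw [Finset.mem_union, not_or] at h3 h4
        refine ⟨⟨insert x p.a, insert y p.b, ?_⟩, ⟨x, Finset.mem_insert_self _ _, y,
          Finset.mem_insert_self _ _, h1⟩, Finset.subset_insert _ _, Finset.subset_insert _ _⟩
        rw [Finset.disjoint_insert_left, Finset.disjoint_insert_right, Finset.mem_insert, not_or]
        exact ⟨⟨h2, h3.2⟩, h4.1, p.dis⟩ }
  let J := Order.idealOfCofinals (⟨∅, ∅, Finset.disjoint_empty_left _⟩ : PT X) 𝒟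
  refine ⟨{x | ∃ p ∈ J, x ∈ p.a}, fun i => ?_⟩
  obtain ⟨p, ⟨x, hx, y, hy, hR⟩, hp⟩ := Order.cofinal_meets_idealOfCofinals
    (⟨∅, ∅, Finset.disjoint_empty_left _⟩ : PT X) 𝒟 i
  refine ⟨x, ⟨p, hp, hx⟩, y, ?_, hR⟩
  rintro ⟨q, hq, hyq⟩
  obtain ⟨r, hr, h1, h2⟩ := J.directed p hp q hq
  exact (Finset.disjoint_left.1 r.dis) (h2.1 hyq) (h1.2 hy)

end Pool.Agent.W2helper55.NT
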