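import Mathlib
import Pool.Agent.W2helper55.NT.Close

/-!
# The flipping automorphism is not trivial on any infinite set
-/

set_option autoImplicit false

namespace Pool.Agent.W2helper55.NT

open Cardinal Set Pool.Agent.H65R3.Forc Pool.Agent.W917.Flip
open Pool.Agent.H631R2 (Cond)

variable {X : Type}

/-- the part of the set named by `D` where the function named by `E` has the value `a` -/
def fib (D : SetName (Cond X) X) (E : X → X → Set (Cond X)) (a : X) : SetName (Cond X) X :=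
  fun x => {p | p ∈ Mem D x ∧ p ∈ meets (E x a)}

/-- `r` forces that `E` is a function on `D` which induces the automorphism on the subsets of `D` -/
structure Ind (D : SetName (Cond X) X) (E : X → X → Set (Cond X)) (r : Cond X) : Prop where
  tot : ∀ x, ∀ s ≤ r, s ∈ Mem D x → ∃ t ≤ s, ∃ y, t ∈ meets (E x y)
  uniq : ∀ s ≤ r, ∀ x y y', s ∈ meets (E x y) → s ∈ meets (E x y') → y = y'
  use : ∀ B : SetName (Cond X) X, (∀ x, ∀ s ≤ r, s ∈ Mem B x → s ∈ Mem D x) →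
    r ∈ AS Set.Finite (Mem (flN B)) (Img E B) ∧ r ∈ AS Set.Finite (Img E B) (Mem (flN B))

variable {D : SetName (Cond X) X} {E : X → X → Set (Cond X)} {r : Cond X}

theorem fib_sub {a x : X} {s : Cond X} (hs : s ∈ Mem (fib D E a) x) : s ∈ Mem D x := by
  refine reg_meets _ s fun t ht => ?_
  obtain ⟨u, hu, v, hv, huv⟩ := hs t ht
  exact ⟨u, hu, down_meets _ _ hv.1 _ huv⟩

theorem Ind.fib_finite (h : Ind D E r) (a : X) : r ∈ Cov Set.Finite (Mem (fib D E a)) := by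
  have h1 := (h.use (fib D E a) fun x s _ hs => fib_sub hs).1
  have h2 : r ∈ Cov Set.Finite (Img E (fib D E a)) := by
    intro q hq
    refine ⟨q, le_rfl, {a}, Set.finite_singleton a, fun y hy s hs hs' => ?_⟩
    obtain ⟨t, ht, x, hx1, hx2⟩ := mem_fex.1 hs' s le_rfl
    obtain ⟨u, hu, v, hv, huv⟩ := hx2 t le_rfl
    have h3 : u ∈ meets (E x a) := down_meets _ _ hv.2 _ huv
    exact hy (h.uniq u (hu.trans (ht.trans (hs.trans hq))) x y a (down_meets _ _ hx1 _ hu) h3)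
  have h3 := cov_flip ideal_fin (AS_cov ideal_fin h1 h2)
  have h4 : (fun x => flS x (Mem (flN (fib D E a)) x)) = Mem (fib D E a) := by
    funext x
    rw [← mem_flN, flN_flN]
  rw [h4] at h3
  exact h3

theorem Ind.fibs_finite (h : Ind D E r) (S : Finset X) : ∀ q ≤ r, ∃ t ≤ q, ∃ S' : Set X,
    S'.Finite ∧ ∀ a ∈ S, ∀ x ∉ S', t ∈ fnot (Mem (fib D E a) x) := by
  classical
  induction S using Finset.induction_on with
  | empty => exact fun q _ => ⟨q, le_rfl, ∅, finite_empty, fun a ha => absurd ha (by simp)⟩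
  | insert a S _ ih =>
    intro q hq
    obtain ⟨t, ht, S', hS', hS''⟩ := ih q hq
    obtain ⟨u, hu, S1, hS1, hS1'⟩ := h.fib_finite a t (ht.trans hq)
    refine ⟨u, hu.trans ht, S' ∪ S1, hS'.union hS1, fun b hb x hx => ?_⟩
    rw [mem_union, not_or] at hx
    rcases Finset.mem_insert.1 hb with rfl | hb
    · exact hS1' x hx.2
    · exact down_fnot _ _ (hS'' b hb x hx.1) _ hu

/-- all but finitely many points of `D` are fixed by `E` -/
theorem Ind.moved_finite (h : Ind D E r) :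
    r ∈ Cov Set.Finite fun x => fand (Mem D x) (fnot (meets (E x x))) := by
  classical
  by_contra hcon
  simp only [Cov, Set.mem_ofPred_eq] at hcon
  push Not at hcon
  obtain ⟨q, hq, hcon⟩ := hcon
  have key : ∀ z : Cond X × Finset X, ∃ (t : Cond X) (x y : X), z.1 ≤ q →
      (t ≤ z.1 ∧ t ∈ Mem D x ∧ t ∈ meets (E x y) ∧ x ≠ y ∧ x ∉ z.2 ∧ y ∉ z.2) := by
    rintro ⟨s, S⟩
    by_cases hs : s ≤ q
    · obtain ⟨t, ht, S', hS', hS''⟩ := h.fibs_finite S s (hs.trans hq)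
      obtain ⟨x, hx, hx'⟩ := hcon t (ht.trans hs) (S' ∪ S) (hS'.union S.finite_toSet)
      rw [mem_union, not_or] at hx
      have h1 : ∃ u ≤ t, u ∈ fand (Mem D x) (fnot (meets (E x x))) := by
        by_contra hc
        push Not at hc
        exact hx' hc
      obtain ⟨u, hu, hu1, hu2⟩ := h1
      obtain ⟨v, hv, y, hy⟩ := h.tot x u (hu.trans (ht.trans (hs.trans hq))) hu1
      have hvD : v ∈ Mem D x := down_meets _ _ hu1 _ hv
      refine ⟨v, x, y, fun _ => ⟨hv.trans (hu.trans ht), hvD, hy, ?_, hx.2, ?_⟩⟩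
      · rintro rfl
        exact hu2 v hv hy
      · intro hyS
        exact hS'' y hyS x hx.1 v (hv.trans hu) (meets_of_mem ⟨hvD, hy⟩)
    · obtain ⟨x, -⟩ := hcon q le_rfl ∅ finite_empty
      exact ⟨q, x, x, fun h' => absurd h' hs⟩
  choose t x y hk using key
  obtain ⟨W, hWc, hW0, hW⟩ := exists_closed
    (fun z => (t z).s.image Prod.fst ∪ {x z, y z}) q.dom q.dom_finite.countable
  have htW : ∀ z ∈ Req W, (t z).dom ⊆ W := by
    intro z hz i hi
    obtain ⟨b, hb⟩ := Cond.mem_dom.1 hi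
    refine hW z hz ?_
    rw [Finset.mem_coe, Finset.mem_union]
    exact Or.inl (Finset.mem_image.2 ⟨(i, b), hb, rfl⟩)
  have hyW : ∀ z ∈ Req W, y z ∈ W := by
    intro z hz
    refine hW z hz ?_
    rw [Finset.mem_coe, Finset.mem_union]
    exact Or.inr (by simp)
  have hxW : ∀ z ∈ Req W, x z ∈ W := by
    intro z hz
    refine hW z hz ?_
    rw [Finset.mem_coe, Finset.mem_union]
    exact Or.inr (by simp)
  let I := {z : Cond X × Finset X // z ∈ Req W ∧ z.1 ≤ q}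
  have : Countable I := by
    have h1 : {z : Cond X × Finset X | z ∈ Req W ∧ z.1 ≤ q}.Countable :=
      (countable_req hWc).mono fun z hz => hz.1
    exact h1.to_subtype
  obtain ⟨C, hC⟩ := exists_cut (I := I) (fun z a b => b ∉ z.1.2 ∧ b ∈ W ∧ ∃ u ≤ z.1.1,
    u.dom ⊆ W ∧ u ∈ Mem D a ∧ u ∈ meets (E a b)) (by
    rintro ⟨⟨s, S⟩, hz, hs⟩ S'
    have hz' : (s, S ∪ S'.filter fun a => a ∈ W) ∈ Req W := by
      refine ⟨hz.1, ?_⟩
      intro a ha
      rcases Finset.mem_union.1 (Finset.mem_coe.1 ha) with ha | ha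
      · exact hz.2 ha
      · exact (Finset.mem_filter.1 ha).2
    obtain ⟨h1, h2, h3, h4, h5, h6⟩ := hk (s, S ∪ S'.filter fun a => a ∈ W) hs
    rw [Finset.mem_union, not_or] at h5 h6
    refine ⟨_, _, ⟨h6.1, hyW _ hz', _, h1, htW _ hz', h2, h3⟩, h4, fun hc => ?_, fun hc => ?_⟩
    · exact h5.2 (Finset.mem_filter.2 ⟨hc, hxW _ hz'⟩)
    · exact h6.2 (Finset.mem_filter.2 ⟨hc, hyW _ hz'⟩))
  let B : SetName (Cond X) X := fun a => {p | a ∈ C ∧ p ∈ Mem D a}
  have hBD : ∀ x, ∀ s ≤ r, s ∈ Mem B x → s ∈ Mem D x := by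
    intro x s _ hs
    refine reg_meets _ s fun t ht => ?_
    obtain ⟨u, hu, v, hv, huv⟩ := hs t ht
    exact ⟨u, hu, down_meets _ _ hv.2 _ huv⟩
  obtain ⟨r', hr', S, hS, hS'⟩ := (h.use B hBD).2 q hq
  obtain ⟨q', h1, h2, h3⟩ := exists_restrict r' W
  have hq' : q' ≤ q := by
    rintro ⟨i, b⟩ hib
    exact h3 i (hW0 (Cond.mem_dom.2 ⟨b, hib⟩)) b (hr' hib)
  obtain ⟨a, ha, b, hb, hbS, hbW, u, hu, huW, huD, huE⟩ := hC ⟨(q', hS.toFinset.filter fun a => a ∈ W),
    ⟨h2, fun c hc => (Finset.mem_filter.1 (Finset.mem_coe.1 hc)).2⟩, hq'⟩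
  have hbS' : b ∉ S := fun hc => hbS (Finset.mem_filter.2 ⟨hS.mem_toFinset.2 hc, hbW⟩)
  obtain ⟨v, hv, hv'⟩ := Cond.exists_lb (p := u) (q := r') (by
    intro i c d hc hd
    exact Cond.unique hc (hu (h3 i (huW (Cond.mem_dom.2 ⟨c, hc⟩)) d hd)))
  have h5 : v ∈ Img E B b :=
    mem_fex_of_mem a (down_fand (down_meets _) (down_meets _))
      ⟨down_meets _ _ huE _ hv, meets_of_mem ⟨ha, down_meets _ _ huD _ hv⟩⟩
  refine hS' b hbS' v hv' ⟨h5, fun w hw hw' => ?_⟩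
  rw [mem_flN] at hw'
  obtain ⟨_, _, s, hs, _⟩ := hw' (fl b w) le_rfl
  exact hb hs.1

/-- Each value of `E` at a point of a finite set can be decided. -/
theorem Ind.decide_finite (h : Ind D E r) {S : Set X} (hS : S.Finite) : ∀ q ≤ r, ∃ t ≤ q,
    ∃ S' : Set X, S'.Finite ∧ ∀ x ∈ S, ∀ y ∉ S', t ∈ fnot (meets (E x y)) := by
  induction S, hS using Set.Finite.induction_on with
  | empty => exact fun q _ => ⟨q, le_rfl, ∅, finite_empty, fun x hx => absurd hx (by simp)⟩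
  | @insert a S _ _ ih =>
    intro q hq
    obtain ⟨t, ht, S', hS', hS''⟩ := ih q hq
    by_cases hc : ∃ u ≤ t, ∃ y, u ∈ meets (E a y)
    · obtain ⟨u, hu, y, hy⟩ := hc
      refine ⟨u, hu.trans ht, insert y S', hS'.insert y, fun x hx z hz => ?_⟩
      rw [mem_insert_iff, not_or] at hz
      rcases hx with rfl | hx
      · intro v hv hv'
        exact hz.1 (h.uniq v (hv.trans (hu.trans (ht.trans hq))) x z y hv'
          (down_meets _ _ hy _ hv))
      · exact down_fnot _ _ (hS'' x hx z hz.2) _ hu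
    · push Not at hc
      refine ⟨t, ht, S', hS', fun x hx z hz => ?_⟩
      rcases hx with rfl | hx
      · exact fun v hv => hc v hv z
      · exact hS'' x hx z hz

/-- the points of `D` with bit `b` -/
def half (D : SetName (Cond X) X) (b : Bool) : SetName (Cond X) X :=
  fun x => {p | p ∈ Mem D x ∧ (x, b) ∈ p.s}

theorem half_sub {b : Bool} {x : X} {s : Cond X} (hs : s ∈ Mem (half D b) x) : s ∈ Mem D x := by
  refine reg_meets _ s fun t ht => ?_
  obtain ⟨u, hu, v, hv, huv⟩ := hs t ht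
  exact ⟨u, hu, down_meets _ _ hv.1 _ huv⟩

theorem Ind.finite (h : Ind D E r) : r ∈ Cov Set.Finite (Mem D) := by
  intro q hq
  obtain ⟨r1, hr1, S1, hS1, hS1'⟩ := h.moved_finite q hq
  obtain ⟨r2, hr2, S2, hS2, hS2'⟩ := h.decide_finite hS1 r1 (hr1.trans hq)
  obtain ⟨r3, hr3, S3, hS3, hS3'⟩ := (h.use D fun x s _ hs => hs).2 r2
    (hr2.trans (hr1.trans hq))
  obtain ⟨r4, hr4, S4, hS4, hS4'⟩ := (h.use (half D true) fun x s _ hs => half_sub hs).1 r3
    (hr3.trans (hr2.trans (hr1.trans hq)))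
  obtain ⟨r5, hr5, S5, hS5, hS5'⟩ := (h.use (half D false) fun x s _ hs => half_sub hs).1 r4
    (hr4.trans (hr3.trans (hr2.trans (hr1.trans hq))))
  refine ⟨r5, hr5.trans (hr4.trans (hr3.trans (hr2.trans hr1))), S1 ∪ S2 ∪ S3 ∪ S4 ∪ S5 ∪ r5.dom,
    ((((hS1.union hS2).union hS3).union hS4).union hS5).union r5.dom_finite, ?_⟩
  intro x hx s hs hsD
  simp only [mem_union, not_or] at hx
  obtain ⟨⟨⟨⟨⟨hx1, hx2⟩, hx3⟩, hx4⟩, hx5⟩, hx6⟩ := hx
  have hsr1 : s ≤ r1 := hs.trans (hr5.trans (hr4.trans (hr3.trans hr2)))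
  -- `x` is fixed
  have h1 : ∃ t ≤ s, t ∈ meets (E x x) := by
    by_contra hc
    push Not at hc
    exact hS1' x hx1 s hsr1 ⟨hsD, hc⟩
  obtain ⟨t, ht, htE⟩ := h1
  have htD : t ∈ Mem D x := down_meets _ _ hsD _ ht
  have h2 : t ∈ Img E D x := mem_fex_of_mem x (down_fand (down_meets _) (down_meets _))
    ⟨htE, htD⟩
  have h3 : ∃ u ≤ t, u ∈ Mem (flN D) x := by
    by_contra hc
    push Not at hc
    exact hS3' x hx3 t (ht.trans (hs.trans (hr5.trans hr4))) ⟨h2, hc⟩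
  obtain ⟨u, hu, huD⟩ := h3
  rw [mem_flN] at huD
  -- decide the bit
  have h4 : ∃ v ≤ u, ∃ b, (x, b) ∈ v.s := by
    by_cases hxu : x ∈ u.dom
    · obtain ⟨b, hb⟩ := Cond.mem_dom.1 hxu
      exact ⟨u, le_rfl, b, hb⟩
    · obtain ⟨v, hv, hv', -⟩ := Cond.exists_ext u hxu true
      exact ⟨v, hv, true, hv'⟩
  obtain ⟨v, hv, b, hb⟩ := h4
  have hvs : v ≤ r5 := hv.trans (hu.trans (ht.trans hs))
  have h5 : v ∈ Mem (flN (half D (!b))) x := by
    rw [mem_flN]
    change fl x v ∈ Mem (half D (!b)) x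
    refine meets_of_mem ⟨?_, ?_⟩
    · have h6 : fl x u ∈ Mem D x := huD
      exact down_meets _ _ h6 _ (fl_le hv)
    · rw [mem_fl, fpt_self, Bool.not_not]
      exact hb
  have h6 : ∃ w ≤ v, w ∈ Img E (half D (!b)) x := by
    by_contra hc
    push Not at hc
    cases b
    · exact hS4' x hx4 v (hvs.trans hr5) ⟨h5, hc⟩
    · exact hS5' x hx5 v hvs ⟨h5, hc⟩
  obtain ⟨w, hw, hw'⟩ := h6
  obtain ⟨w1, hw1, z, hz1, hz2⟩ := mem_fex.1 hw' w le_rfl
  have hw1r1 : w1 ≤ r1 := hw1.trans (hw.trans (hvs.trans (hr5.trans (hr4.trans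
    (hr3.trans hr2)))))
  have hw1r2 : w1 ≤ r2 := hw1.trans (hw.trans (hvs.trans (hr5.trans (hr4.trans hr3))))
  -- `z = x`
  have hzS1 : z ∉ S1 := fun hc => hS2' z hc x hx2 w1 hw1r2 hz1
  have h7 : ∃ w2 ≤ w1, w2 ∈ meets (E z z) := by
    by_contra hc
    push Not at hc
    exact hS1' z hzS1 w1 hw1r1 ⟨half_sub hz2, hc⟩
  obtain ⟨w2, hw2, hw2'⟩ := h7
  have hzx : z = x := h.uniq w2 (hw2.trans (hw1r1.trans (hr1.trans hq))) z z x hw2'
    (down_meets _ _ hz1 _ hw2)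
  subst hzx
  obtain ⟨w3, hw3, w4, hw4, hw34⟩ := hz2 w1 le_rfl
  have h8 : (z, b) ∈ w3.s := hw3 (hw1 (hw hb))
  have h9 : (z, !b) ∈ w3.s := hw34 hw4.2
  have := Cond.unique h8 h9
  cases b <;> simp at this

/-- The automorphism is not trivial on any infinite set. -/
theorem nowhere_trivial (p : Cond X) :
    p ∈ fall fun D : SetName (Cond X) X =>
      fimp (fnot (FinSet (Mem D))) (fnot (IsTrivialOn (TT X) D)) := by
  intro D
  rw [mem_fimp]
  intro q _ hqD
  refine ⟨q, le_rfl, ?_⟩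
  intro r hr hrT
  obtain ⟨r2, hr2, E, ⟨hE1, hE1'⟩, hE2⟩ := mem_fex.1 hrT r le_rfl
  have hind : Ind D E r2 := by
    refine ⟨fun x s hs hsD => ?_, fun s hs x y y' h1 h2 => ?_, fun B hB => ?_⟩
    · obtain ⟨t, ht, ht'⟩ := mem_fimp.1 (hE1 x) s hs hsD
      obtain ⟨u, hu, y, hy⟩ := mem_fex.1 ht' t le_rfl
      exact ⟨u, hu.trans ht, y, hy⟩
    · obtain ⟨t, _, ht⟩ := mem_fimp.1 (hE1' x y y') s hs ⟨h1, h2⟩
      exact ht
    · have h1 : ∀ q ≤ r2, ∃ r ≤ q, r ∈ AS Set.Finite (Mem (flN B)) (Img E B) ∧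
          r ∈ AS Set.Finite (Img E B) (Mem (flN B)) := by
        intro q hq
        obtain ⟨r, hr, hr'⟩ := mem_fimp.1 (hE2 B (flN B)) q hq ⟨fun x => by
          rw [mem_fimp]
          intro s hs hs'
          exact ⟨s, le_rfl, hB x s (hs.trans hq) hs'⟩, rel_TT B q⟩
        refine ⟨r, hr, ?_⟩
        rw [AlmostSub, AlmostSub, finSet_eq, finSet_eq] at hr'
        exact hr'
      constructor
      · exact reg_Cov fun q hq => by
          obtain ⟨r, hr, h, _⟩ := h1 q hq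
          exact ⟨r, hr, h⟩
      · exact reg_Cov fun q hq => by
          obtain ⟨r, hr, _, h⟩ := h1 q hq
          exact ⟨r, hr, h⟩
  have h1 := hind.finite
  rw [← finSet_eq] at h1
  exact hqD r2 (hr2.trans hr) h1

end Pool.Agent.W2helper55.NT
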